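import Mathlib
import Pool.Agent.Work.MP_787500_nt.HP.BKDefs

/-!
Parity of Bloch-Kato Selmer groups of conjugate self-dual representations: definitions used in the statement
of the theorem. The other definitions are in `PA/ParityDefs.lean`, `GP/FinDefs.lean` and `HP/BKDefs.lean`.
-/

set_option autoImplicit false

namespace Pool.Agent.Work.MP_787500_nt.Parity

open Matrix

variable {G : Type*} [Group G] [TopologicalSpace G] {E : Type*} [NormedField E] {n : ℕ}

/-- `ρ` is a continuous representation of `G` on `E ^ n`, trivial on the subset `I`, and `b` is the matrix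
of a symmetric bilinear form with `b (ρ σ x) (ρ (κ σ) y) = χ σ * b x y`. -/
structure IsDualRep (I : Set G) (χ : G → E) (κ : G → G) (ρ : G →* Matrix (Fin n) (Fin n) E)
    (b : Matrix (Fin n) (Fin n) E) : Prop where
  cont : Continuous ρ
  unram : ∀ σ ∈ I, ρ σ = 1
  symm : bᵀ = b
  dual : ∀ σ, (ρ σ)ᵀ * b * ρ (κ σ) = χ σ • b

/-- The image of the subgroup `N` is pro-2: `ρ (σ ^ 2 ^ k)` tends to 1 for all `σ` in `N`. -/
def ProTwoOn (N : Subgroup G) (ρ : G →* Matrix (Fin n) (Fin n) E) : Prop :=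
  ∀ σ ∈ N, Filter.Tendsto (fun k : ℕ => ρ (σ ^ 2 ^ k)) Filter.atTop (nhds 1)

/-- The image of `ρ` is pro-2; or the residue field of `E` has two elements, and `n = 2` or `ρ` is pro-2 on
a normal subgroup of index dividing 6. -/
def NearProTwo (ρ : G →* Matrix (Fin n) (Fin n) E) : Prop :=
  ProTwoOn ⊤ ρ ∨ ((∀ x : E, ‖x‖ ≤ 1 → ‖x‖ < 1 ∨ ‖x - 1‖ < 1) ∧
    (n = 2 ∨ ∃ N : Subgroup G, N.Normal ∧ N.index ∣ 6 ∧ ProTwoOn N ρ))

end Pool.Agent.Work.MP_787500_nt.Parity
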