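import Mathlib
import Pool.Agent.Work.MP_787500_nt.KR.NZero
import Pool.Agent.Work.MP_787500_nt.KR.GDefs
import Pool.Agent.Work.MP_787500_nt.LB.Tame

/-!
The largest normal subgroup on which a representation is pro-2, and the case where its index divides 6.
-/

set_option autoImplicit false
set_option linter.unusedSectionVars false

namespace Pool.Agent.Work.MP_787500_nt.LA

open Matrix
open Pool.Agent.Work.MP_787500_nt.PA (toE)
open Pool.Agent.Work.MP_787500_nt.GP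
open Pool.Agent.Work.MP_787500_nt.KR (FSys IsFull Tri Syl Opn)

section grp

variable {G : Type*} [Group G]

/-- all elements of `A` have 2-power order modulo `W` -/
def TwoMod (W A : Subgroup G) : Prop := ∀ a ∈ A, ∃ k : ℕ, a ^ 2 ^ k ∈ W

theorem twoMod_iff {W A : Subgroup G} [W.Normal] :
    TwoMod W A ↔ IsPGroup 2 (A.map (QuotientGroup.mk' W)) := by
  constructor
  · rintro h ⟨_, a, ha, rfl⟩
    obtain ⟨k, hk⟩ := h a ha
    refine ⟨k, Subtype.ext ?_⟩
    show (QuotientGroup.mk' W a) ^ 2 ^ k = 1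
    rw [← map_pow]
    exact (QuotientGroup.eq_one_iff _).2 hk
  · intro h a ha
    obtain ⟨k, hk⟩ := h ⟨QuotientGroup.mk' W a, a, ha, rfl⟩
    refine ⟨k, ?_⟩
    have h1 : (QuotientGroup.mk' W a) ^ 2 ^ k = 1 := congrArg Subtype.val hk
    rw [← map_pow] at h1
    exact (QuotientGroup.eq_one_iff _).1 h1

theorem twoMod_sup {W A B : Subgroup G} [W.Normal] (hB : B.Normal) (h : TwoMod W A)
    (h' : TwoMod W B) : TwoMod W (A ⊔ B) := by
  rw [twoMod_iff] at h h' ⊢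
  rw [Subgroup.map_sup]
  have : (B.map (QuotientGroup.mk' W)).Normal := hB.map _ (QuotientGroup.mk'_surjective W)
  exact h.to_sup_of_normal_right h'

/-- the largest normal subgroup whose elements have 2-power order modulo `W` -/
def o2 (W : Subgroup G) : Subgroup G := sSup {A | A.Normal ∧ TwoMod W A}

theorem o2_mem {W : Subgroup G} [W.Normal] {x : G} :
    x ∈ o2 W ↔ ∃ A : Subgroup G, (A.Normal ∧ TwoMod W A) ∧ x ∈ A := by
  have h0 : ({A | A.Normal ∧ TwoMod W A} : Set (Subgroup G)).Nonempty := by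
    refine ⟨⊥, inferInstance, fun a ha => ⟨0, ?_⟩⟩
    rw [Subgroup.mem_bot] at ha
    rw [ha, one_pow]
    exact W.one_mem
  refine Subgroup.mem_sSup_of_directedOn h0 ?_
  rintro A ⟨hA, hA'⟩ B ⟨hB, hB'⟩
  exact ⟨A ⊔ B, ⟨inferInstance, twoMod_sup hB hA' hB'⟩, le_sup_left, le_sup_right⟩

theorem o2_two (W : Subgroup G) [W.Normal] : TwoMod W (o2 W) := by
  intro a ha
  obtain ⟨A, ⟨-, hA⟩, h⟩ := o2_mem.1 ha
  exact hA a h

theorem o2_normal (W : Subgroup G) [W.Normal] : (o2 W).Normal := by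
  refine ⟨fun a ha g => ?_⟩
  obtain ⟨A, ⟨hA, hA'⟩, h⟩ := o2_mem.1 ha
  exact o2_mem.2 ⟨A, ⟨hA, hA'⟩, hA.conj_mem a h g⟩

theorem le_o2 {W A : Subgroup G} (hA : A.Normal) (h : TwoMod W A) : A ≤ o2 W :=
  le_sSup ⟨hA, h⟩

/-- if the index of `o2 W` divides 6 then `o2 W` is everything or the kernel of the action on the cosets
of a subgroup of index 3 -/
theorem o2_cases {W : Subgroup G} [W.Normal] (hi : (o2 W).index ∣ 6) :
    o2 W = ⊤ ∨ ∃ C : Subgroup G, o2 W ≤ C ∧ (∃ k : ℕ, (o2 W).relIndex C = 2 ^ k) ∧ C.index = 3 ∧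
      ∀ g : G, (∀ v : G ⧸ C, g • v = v) → g ∈ o2 W := by
  have hn := o2_normal W
  have hi0 : (o2 W).index ≠ 0 := by
    intro h0
    rw [h0] at hi
    norm_num at hi
  have hfi : (o2 W).FiniteIndex := ⟨hi0⟩
  have hfin : Finite (G ⧸ o2 W) := Subgroup.finite_quotient_of_finiteIndex
  have hp2 : Fact (Nat.Prime 2) := ⟨Nat.prime_two⟩
  obtain ⟨P⟩ : Nonempty (Sylow 2 (G ⧸ o2 W)) := inferInstance
  set C : Subgroup G := (P : Subgroup (G ⧸ o2 W)).comap (QuotientGroup.mk' (o2 W)) with hC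
  have hle : o2 W ≤ C := by
    intro x hx
    show QuotientGroup.mk' (o2 W) x ∈ (P : Subgroup (G ⧸ o2 W))
    have : QuotientGroup.mk' (o2 W) x = 1 := (QuotientGroup.eq_one_iff _).2 hx
    rw [this]
    exact one_mem _
  have hidx : C.index = (P : Subgroup (G ⧸ o2 W)).index :=
    Subgroup.index_comap_of_surjective _ (QuotientGroup.mk'_surjective _)
  have hodd : ¬ 2 ∣ C.index := by
    rw [hidx]
    exact P.not_dvd_index
  have hdvd : C.index ∣ 6 := (Subgroup.index_dvd_of_le hle).trans hi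
  have hrel : ∃ k : ℕ, (o2 W).relIndex C = 2 ^ k := by
    obtain ⟨k, hk⟩ := P.isPGroup'.exists_card_eq
    refine ⟨k, ?_⟩
    have h1 : (⊥ : Subgroup (G ⧸ o2 W)).relIndex (P : Subgroup (G ⧸ o2 W)) = 2 ^ k := by
      rw [Subgroup.relIndex_bot_left]
      exact hk
    have h2 : (⊥ : Subgroup (G ⧸ o2 W)).comap (QuotientGroup.mk' (o2 W)) = o2 W := by
      ext x
      rw [Subgroup.mem_comap, Subgroup.mem_bot]
      exact QuotientGroup.eq_one_iff x
    have h3 := Subgroup.relIndex_comap (⊥ : Subgroup (G ⧸ o2 W)) (QuotientGroup.mk' (o2 W)) C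
    rw [h2, hC, Subgroup.map_comap_eq_self_of_surjective (QuotientGroup.mk'_surjective _), h1] at h3
    rw [hC]
    exact h3
  -- the core of `C` is a 2-group modulo `W`
  have hcore : ∀ g : G, (∀ v : G ⧸ C, g • v = v) → g ∈ o2 W := by
    let A : Subgroup G := (MulAction.toPermHom G (G ⧸ C)).ker
    have hA : ∀ g, g ∈ A ↔ ∀ v : G ⧸ C, g • v = v := by
      intro g
      constructor
      · intro h v
        exact congrArg (fun e : Equiv.Perm (G ⧸ C) => e v) (MonoidHom.mem_ker.1 h)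
      · intro h
        exact MonoidHom.mem_ker.2 (Equiv.ext h)
    have hAC : A ≤ C := by
      intro g hg
      have h1 := (hA g).1 hg ((1 : G) : G ⧸ C)
      have h2 : ((g * 1 : G) : G ⧸ C) = ((1 : G) : G ⧸ C) := h1
      rw [mul_one, eq_comm, QuotientGroup.eq, inv_one, one_mul] at h2
      exact h2
    have hA2 : TwoMod W A := by
      intro a ha
      have h1 := P.isPGroup' ⟨_, hAC ha⟩
      obtain ⟨k, hk⟩ := h1
      have h2 : (QuotientGroup.mk' (o2 W) a) ^ 2 ^ k = 1 := congrArg Subtype.val hk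
      rw [← map_pow] at h2
      have h3 : a ^ 2 ^ k ∈ o2 W := (QuotientGroup.eq_one_iff _).1 h2
      obtain ⟨m, hm⟩ := o2_two W _ h3
      refine ⟨k + m, ?_⟩
      rw [pow_add, pow_mul]
      exact hm
    have h4 : A ≤ o2 W := le_o2 inferInstance hA2
    exact fun g hg => h4 ((hA g).2 hg)
  have h13 : C.index = 1 ∨ C.index = 3 := by
    have h0 := Nat.le_of_dvd (by norm_num) hdvd
    interval_cases h : C.index
    · norm_num at hdvd
    · exact Or.inl rfl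
    · norm_num at hodd
    · exact Or.inr rfl
    · norm_num at hdvd
    · norm_num at hdvd
    · norm_num at hodd
  rcases h13 with h1 | h3
  · left
    rw [eq_top_iff]
    intro g _
    refine hcore g fun v => ?_
    have hCt : C = ⊤ := Subgroup.index_eq_one.1 h1
    obtain ⟨x, rfl⟩ := QuotientGroup.mk_surjective v
    show ((g * x : G) : G ⧸ C) = (x : G ⧸ C)
    rw [QuotientGroup.eq, hCt]
    trivial
  · exact Or.inr ⟨C, hle, hrel, h3, hcore⟩

end grp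

variable {G : Type*} [Group G] [TopologicalSpace G] [IsTopologicalGroup G] [CompactSpace G]
  {E : Type*} [NormedField E] [NormedAlgebra ℚ_[2] E] [FiniteDimensional ℚ_[2] E] {n : ℕ}
  {ρ : G →* Matrix (Fin n) (Fin n) E}

/-- the representation is pro-2 at `g` iff `g` has 2-power order modulo the kernel of the action on
`T / l T` -/
theorem pro_iff {T : Submodule (OE E) (Fin n → E)} {l : OE E} (hl0 : (l : E) ≠ 0)
    (hl1 : ‖(l : E)‖ < 1) (hlm : ∀ x : E, ‖x‖ < 1 → ‖x‖ ≤ ‖(l : E)‖)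
    (hst : ∀ g, ∀ x ∈ T, ρ g *ᵥ x ∈ T)
    (hbdd : ∃ R : ℝ, ∀ x ∈ T, ‖x‖ ≤ R)
    (hopn : ∃ r : ℝ, 0 < r ∧ ∀ x : Fin n → E, ‖x‖ < r → x ∈ T) {g : G} :
    Filter.Tendsto (fun k : ℕ => ρ (g ^ 2 ^ k)) Filter.atTop (nhds 1) ↔
      ∃ k : ℕ, g ^ 2 ^ k ∈ KR.kerT T (l : E) ρ hst := by
  constructor
  · intro h
    obtain ⟨R, hR⟩ := hbdd
    obtain ⟨r, hr, hr'⟩ := hopn
    have hl0' : 0 < ‖(l : E)‖ := norm_pos_iff.2 hl0
    have hR0 : 0 ≤ R := (norm_nonneg _).trans (hR 0 T.zero_mem)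
    -- uniform smallness
    have h1 : ∀ᶠ k : ℕ in Filter.atTop, ∀ i j, ‖(ρ (g ^ 2 ^ k) - 1) i j‖ < r * ‖(l : E)‖ / (R + 1) / (n + 1) := by
      rw [Filter.eventually_all]
      intro i
      rw [Filter.eventually_all]
      intro j
      have h2 : Filter.Tendsto (fun k : ℕ => ‖(ρ (g ^ 2 ^ k) - 1) i j‖) Filter.atTop
          (nhds ‖((1 : Matrix (Fin n) (Fin n) E) - 1) i j‖) := by
        have h3 : Continuous fun M : Matrix (Fin n) (Fin n) E => ‖(M - 1) i j‖ := by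
          exact ((continuous_id.sub continuous_const).matrix_elem i j).norm
        exact (h3.tendsto 1).comp h
      rw [sub_self] at h2
      have h4 : ‖(0 : Matrix (Fin n) (Fin n) E) i j‖ = 0 := by simp
      rw [h4] at h2
      exact h2.eventually_lt_const (by positivity)
    obtain ⟨k, hk⟩ := h1.exists
    refine ⟨k, fun x hx => hr' _ ?_⟩
    have h6 : ρ (g ^ 2 ^ k) *ᵥ x - x = (ρ (g ^ 2 ^ k) - 1) *ᵥ x := by rw [sub_mulVec, one_mulVec]
    rw [h6]
    have h7 := Gn.mulVec_norm_le (ρ (g ^ 2 ^ k) - 1) (c := r * ‖(l : E)‖ / (R + 1) / (n + 1))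
      (by positivity) (fun i j => (hk i j).le) x
    have h8 := hR _ hx
    rw [norm_smul] at h8
    refine h7.trans_lt ?_
    have h9 : (n : ℝ) * (r * ‖(l : E)‖ / (R + 1) / (n + 1)) * ‖x‖ ≤ r * (R / (R + 1)) := by
      have h10 : ‖(l : E)‖ * ‖x‖ ≤ R := h8
      have h11 : (n : ℝ) / (n + 1) ≤ 1 := by
        rw [div_le_one (by positivity)]
        linarith
      calc (n : ℝ) * (r * ‖(l : E)‖ / (R + 1) / (n + 1)) * ‖x‖
          = ((n : ℝ) / (n + 1)) * (r * ((‖(l : E)‖ * ‖x‖) / (R + 1))) := by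
            field_simp
        _ ≤ 1 * (r * (R / (R + 1))) := by
            refine mul_le_mul h11 ?_ (by positivity) zero_le_one
            exact mul_le_mul_of_nonneg_left (div_le_div_of_nonneg_right h10 (by positivity)) hr.le
        _ = _ := one_mul _
    refine h9.trans_lt ?_
    have h12 : R / (R + 1) < 1 := by
      rw [div_lt_one (by positivity)]
      linarith
    nlinarith
  · rintro ⟨k, hk⟩
    have h1 := KR.kerT_pro hl0 hl1 hlm hst hbdd hopn hk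
    refine (Filter.tendsto_add_atTop_iff_nat k).1 ?_
    refine h1.congr fun i => ?_
    rw [← pow_mul, ← pow_add, add_comm]

/-- the largest normal subgroup on which the representation is pro-2 -/
theorem exists_tri {F : FSys G} {I : Set G} (hF : IsFull I F) {χ : G → ℤ_[2]}
    (hχm : ∀ g h, χ (g * h) = χ g * χ h) (hχ1 : χ 1 = 1) (hχ : ∀ g, (2 : ℤ_[2]) ∣ χ g - 1)
    {κ : G →* G} (hκκ : ∀ g, κ (κ g) = g)
    {b : Matrix (Fin n) (Fin n) E} (hb : b.det ≠ 0) {N : Subgroup G} (hN : N.Normal)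
    (hi : N.index ∣ 6)
    (hρ : Gn.ConjDual 2 N I (fun g => toE E (χ g)) κ ρ b) :
    (∀ g, Filter.Tendsto (fun k : ℕ => ρ (g ^ 2 ^ k)) Filter.atTop (nhds 1)) ∨
      ∃ N₀ C : Subgroup G, Tri F N₀ C ∧ IsOpen (N₀ : Set G) ∧ (∀ g ∈ N₀, κ g ∈ N₀) ∧
        (∀ σ ∈ I, σ ∈ N₀) ∧
        ∀ g ∈ N₀, Filter.Tendsto (fun k : ℕ => ρ (g ^ 2 ^ k)) Filter.atTop (nhds 1) := by
  obtain ⟨l, hl0, hl1, hlm⟩ := exists_unif E
  have hsm : KR.SmallRep F (fun g => ρ g) := KR.small_full hF hρ.cont hρ.unram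
  obtain ⟨T, hst, -, hbdd, hopn⟩ := KR.exists_lat0 hsm b
  have hpro : ∀ g, Filter.Tendsto (fun k : ℕ => ρ (g ^ 2 ^ k)) Filter.atTop (nhds 1) ↔
      ∃ k : ℕ, g ^ 2 ^ k ∈ KR.kerT T (l : E) ρ hst := fun g => pro_iff hl0 hl1 hlm hst hbdd hopn
  set W := KR.kerT T (l : E) ρ hst with hW
  have hWn : W.Normal := KR.kerT_normal hst
  have hWo : IsOpen (W : Set G) := KR.kerT_open hl0 hρ.cont hst hbdd hopn
  have hWI : ∀ σ ∈ I, σ ∈ W := KR.kerT_inertia hst hρ.unram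
  have hWle : W ≤ o2 W := le_o2 hWn fun a ha => ⟨0, by rwa [pow_zero, pow_one]⟩
  have hNle : N ≤ o2 W := le_o2 hN fun a ha => (hpro a).1 (hρ.proP a ha)
  have hidx : (o2 W).index ∣ 6 := (Subgroup.index_dvd_of_le hNle).trans hi
  -- stability under `κ`
  have hdual : ∀ a, (∃ k : ℕ, κ a ^ 2 ^ k ∈ W) → ∃ k : ℕ, a ^ 2 ^ k ∈ W := by
    rintro a ⟨k, hk⟩
    rw [← hpro]
    have h1 : ∃ k : ℕ, (κ a)⁻¹ ^ 2 ^ k ∈ W := ⟨k, by
      rw [inv_pow]
      exact W.inv_mem hk⟩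
    rw [← hpro] at h1
    -- `ρ (a ^ 2 ^ k) = χ ((κ a) ^ 2 ^ k) • b⁻¹ (ρ ((κ a)⁻¹ ^ 2 ^ k))ᵀ b`
    have hbu : IsUnit b.det := isUnit_iff_ne_zero.2 hb
    have h2 : ∀ k : ℕ, ρ (a ^ 2 ^ k) =
        toE E (χ (κ a) ^ 2 ^ k) • (b⁻¹ * ((ρ ((κ a)⁻¹ ^ 2 ^ k))ᵀ * b)) := by
      intro k
      have h3 := hρ.dual (κ a ^ 2 ^ k)
      have hχp : ∀ (g : G) (i : ℕ), χ (g ^ i) = χ g ^ i := by
        intro g i
        induction i with
        | zero => rw [pow_zero, pow_zero, hχ1]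
        | succ i ih => rw [pow_succ, hχm, ih, pow_succ]
      rw [map_pow κ, hκκ, hχp] at h3
      have h4 : (ρ ((κ a)⁻¹ ^ 2 ^ k))ᵀ * (ρ (κ a ^ 2 ^ k))ᵀ = 1 := by
        rw [← transpose_mul, ← map_mul, inv_pow, mul_inv_cancel, map_one, transpose_one]
      have h5 : b * ρ (a ^ 2 ^ k) = toE E (χ (κ a) ^ 2 ^ k) • ((ρ ((κ a)⁻¹ ^ 2 ^ k))ᵀ * b) := by
        calc b * ρ (a ^ 2 ^ k) = (ρ ((κ a)⁻¹ ^ 2 ^ k))ᵀ * ((ρ (κ a ^ 2 ^ k))ᵀ * b * ρ (a ^ 2 ^ k)) := by
              rw [← Matrix.mul_assoc, ← Matrix.mul_assoc, h4, Matrix.one_mul]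
          _ = _ := by rw [h3, Matrix.mul_smul]
      calc ρ (a ^ 2 ^ k) = b⁻¹ * (b * ρ (a ^ 2 ^ k)) := by
            rw [← Matrix.mul_assoc, nonsing_inv_mul _ hbu, Matrix.one_mul]
        _ = _ := by rw [h5, Matrix.mul_smul]
    have h3 : Filter.Tendsto (fun k : ℕ => toE E (χ (κ a) ^ 2 ^ k)) Filter.atTop (nhds 1) := by
      rw [tendsto_iff_norm_sub_tendsto_zero]
      have h4 : ∀ k : ℕ, ‖toE E (χ (κ a) ^ 2 ^ k) - 1‖ ≤ (1 / 2 : ℝ) ^ k := by
        intro k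
        have h5 : toE E (χ (κ a) ^ 2 ^ k) - 1 = toE E (χ (κ a) ^ 2 ^ k - 1) := by
          have h51 := map_sub ((algebraMap ℚ_[2] E).comp PadicInt.Coe.ringHom) (χ (κ a) ^ 2 ^ k) 1
          rw [map_one] at h51
          exact h51.symm
        rw [h5]
        have h6 : ‖toE E (χ (κ a) ^ 2 ^ k - 1)‖ = ‖χ (κ a) ^ 2 ^ k - 1‖ := by
          show ‖algebraMap ℚ_[2] E ((χ (κ a) ^ 2 ^ k - 1 : ℤ_[2]) : ℚ_[2])‖ = _
          rw [norm_algebraMap']
          rfl
        rw [h6]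
        have h7 := (PadicInt.norm_le_pow_iff_mem_span_pow (χ (κ a) ^ 2 ^ k - 1) k).2 (by
          rw [Ideal.mem_span_singleton]
          exact_mod_cast LB.pow_two_one (hχ (κ a)) k)
        rw [_root_.zpow_neg, zpow_natCast, ← inv_pow] at h7
        rw [one_div]
        exact_mod_cast h7
      exact squeeze_zero (fun k => norm_nonneg _) h4
        (tendsto_pow_atTop_nhds_zero_of_lt_one (by norm_num) (by norm_num))
    have h4 : Filter.Tendsto (fun k : ℕ => toE E (χ (κ a) ^ 2 ^ k) •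
        (b⁻¹ * ((ρ ((κ a)⁻¹ ^ 2 ^ k))ᵀ * b))) Filter.atTop
        (nhds ((1 : E) • (b⁻¹ * ((1 : Matrix (Fin n) (Fin n) E)ᵀ * b)))) := by
      refine h3.smul ?_
      have h5 : Continuous fun M : Matrix (Fin n) (Fin n) E => b⁻¹ * (Mᵀ * b) := by fun_prop
      exact (h5.tendsto 1).comp h1
    rw [transpose_one, Matrix.one_mul, nonsing_inv_mul _ hbu, one_smul] at h4
    exact h4.congr fun k => (h2 k).symm
  have hκo : ∀ g ∈ o2 W, κ g ∈ o2 W := by
    intro g hg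
    have h1 : (o2 W).comap κ ≤ o2 W := by
      refine le_o2 ((o2_normal W).comap κ) fun a ha => ?_
      exact hdual a (o2_two W _ ha)
    refine h1 ?_
    show κ (κ g) ∈ o2 W
    rwa [hκκ]
  have hoo : IsOpen (o2 W : Set G) := Subgroup.isOpen_mono hWle hWo
  rcases o2_cases hidx with h1 | ⟨C, hle, hrel, h3, hcore⟩
  · left
    intro g
    rw [hpro]
    exact o2_two W g (by rw [h1]; trivial)
  · right
    refine ⟨o2 W, C, ⟨⟨o2_normal W, ⟨W, (hF W).2 ⟨hWn, hWo, hWI⟩, hWle⟩, hle, hrel, ?_⟩, h3, hcore⟩,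
      hoo, hκo, fun σ hσ => hWle (hWI σ hσ), fun g hg => (hpro g).2 (o2_two W g hg)⟩
    rw [h3]
    decide

end Pool.Agent.Work.MP_787500_nt.LA
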