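import Mathlib
import Pool.Agent.Work.MP_787500_nt.KR.G5_Main
import Pool.Agent.Work.MP_787500_nt.KR.L20
import Pool.Agent.Work.MP_787500_nt.LX.X1_Sqrt
import Pool.Agent.Work.MP_787500_nt.LX.X3_Lat
import Pool.Agent.Work.MP_787500_nt.LX.X5_Par

/-!
The parity formula in all dimensions over a totally ramified extension of `ℚ_2`, for representations that
are pro-2 on a normal subgroup `N₀` with `G / N₀` cyclic of order 3 or symmetric of degree 3, from the
parity of self-dual planes.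
-/

set_option autoImplicit false
set_option linter.unusedSectionVars false

namespace Pool.Agent.Work.MP_787500_nt.LA

open Matrix
open Pool.Agent.Work.MP_787500_nt.GP
open Pool.Agent.Work.MP_787500_nt.PA (toE)
open Pool.Agent.Work.MP_787500_nt.LX
open Pool.Agent.Work.MP_787500_nt.KR (FSys big IsBig Tri InjC ShaC ParD ParPl)

universe v

theorem parity_of_par {G : Type*} [Group G] [TopologicalSpace G] [IsTopologicalGroup G]
    [CompactSpace G] {I : Set G} {N₀ C : Subgroup G} (hB : Gn.Base N₀ I)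
    (hbasis : ∀ O ∈ nhds (1 : G), ∃ U : Subgroup G, IsOpen (U : Set G) ∧ (U : Set G) ⊆ O)
    {F : FSys G} (hS : IsBig N₀ I (big F N₀)) {Φ : Type*} [Fintype Φ]
    {D : Φ → Subgroup G} (hD : ∀ w, IsClosed (D w : Set G)) {SD : ∀ w, FSys (D w)}
    (hSD : ∀ w, IsBig (N₀.subgroupOf (D w)) ∅ (SD w))
    {χ : G → ℤ_[2]} {κ : G →* G} (hκ : Continuous κ) (hκN : ∀ s ∈ N₀, κ s ∈ N₀)
    {Θ : Set (G × G)} {inv : ∀ w, (D w → D w → A0) → A0} (hC : Tri F N₀ C)
    (H : ParD.{v} (big F N₀) SD (fun w => (D w).subtype) χ inv κ Θ)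
    (hi : InjC F C (fun i : Φ × Bool => if i.2 then κ.comp (D i.1).subtype else (D i.1).subtype))
    (hs : ShaC F C (fun i : Φ × Bool => SD i.1)
      (fun i => if i.2 then κ.comp (D i.1).subtype else (D i.1).subtype))
    (hP : ∀ (O : Type v) [CommRing O] [IsLocalRing O],
      Nat.card (IsLocalRing.ResidueField O) = 2 → ParPl H O)
    (hχΘ : ∀ p ∈ Θ, χ p.1 = -1)
    {E : Type v} [NormedField E] [NormedAlgebra ℚ_[2] E] [FiniteDimensional ℚ_[2] E]
    (hres : ∀ x : E, ‖x‖ ≤ 1 → ‖x‖ < 1 ∨ ‖x - 1‖ < 1) {n : ℕ}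
    {ρ : G →* Matrix (Fin n) (Fin n) E} {b : Matrix (Fin n) (Fin n) E} (hb : b.det ≠ 0)
    (hρ : Gn.ConjDual 2 N₀ I (fun g => toE E (χ g)) κ ρ b) :
    Parity.ParityFormula I (fun g => toE E (χ g)) κ ρ b D := by
  obtain ⟨l, hl0, hl1, hlm⟩ := exists_unif E
  obtain ⟨E', i1, i2, i3, ι, m, hx⟩ := exists_sqrtExt hl0 hl1 hlm
  refine parity_ext hx hl0 ?_
  have hm0 : m ≠ 0 := hx.ne hl0
  have hm1 : ‖m‖ < 1 := hx.lt hl1
  have hmm := hx.max hl0 hl1 hlm
  have hρ' := conjDual_ext hx hρ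
  have hb' := det_ext hx hb
  have hloc : IsLocalRing (OE E') := isLocal E'
  have hrf : Finite (IsLocalRing.ResidueField (OE E')) := res_finite
  have hr2 : Nat.card (IsLocalRing.ResidueField (OE E')) = 2 :=
    card_res_two (hx.res hl0 hl1 hlm hres)
  have hsm : KR.SmallRep (big F N₀) (fun g => ρ g) :=
    KR.big_small hB hS ⟨map_one ρ, map_mul ρ, hρ.cont, hρ.proP⟩ hρ.unram
  have hd : ∀ g x y, bil b (ρ g *ᵥ x) (ρ (κ g) *ᵥ y) = toE E (χ g) * bil b x y := by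
    intro g x y
    unfold bil
    rw [← vecMul_transpose, ← dotProduct_mulVec, mulVec_mulVec, mulVec_mulVec,
      hρ.dual, smul_mulVec, dotProduct_smul, smul_eq_mul]
  obtain ⟨T', hst, hdual, hbdd, hopn⟩ := exists_lat_sqrt (χ := χ) (κ := κ) hsm hb hρ.symm hd hl0 hl1 hlm hx
  obtain ⟨t, ht1, ht2, ht3⟩ := exists_func E'
  let m' : OE E' := ⟨m, hm1.le⟩
  have hlat : Lat (b.map ι) m' t T' :=
    ⟨hm0, hm1, hmm, ht1, ht2, ht3, hρ'.symm, hdual, hbdd, hopn⟩
  refine KR.final_gen hB hbasis hS hD hSD hκ hκN H hχΘ hb' hρ' hlat hst ?_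
  intro N' h Λ hΛ
  have hfin : Finite (MN T' m' N') := MN_finite hlat N'
  exact KR.finite_parity3 hC H hi hs two_mem hr2 (hP (OE E') hr2) h Λ hΛ

end Pool.Agent.Work.MP_787500_nt.LA
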