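import Mathlib
import Pool.Agent.Work.MP_787500_nt.RQ.HypK
import Pool.Agent.Work.MP_787500_nt.KR.G5_Main

/-!
The parity of all self-dual planes over `K`, for large sets `T` of primes (definitions).
-/

set_option autoImplicit false
set_option linter.unusedSectionVars false

namespace Pool.Agent.Work.MP_787500_nt.LA

open Matrix NumberField
open Pool.Agent.Work.MP_787500_nt.GP
open Pool.Agent.Work.MP_787500_nt.PA (cyc)
open Pool.Agent.Work.MP_787500_nt.HP (IsQ Spl IsP QDat stb cyQ emb)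
open Pool.Agent.Work.MP_787500_nt.RQ (KDatF LocF rs ufull)
open Pool.Agent.Work.MP_787500_nt.KR (FSys big Tri Syl fullK fullD ParD ParPl)

universe u v

variable {K : Type u} [Field K] [NumberField K] {D : ℕ} {s : K}
  {c : AlgebraicClosure K ≃+* AlgebraicClosure K} {κ : AbsGal K →* AbsGal K}

/-- the invariants over `ℚ` and over `K` and their relations (`RQ.exists_KQ'`) -/
structure KQ (c : AlgebraicClosure K ≃+* AlgebraicClosure K) (κ : AbsGal K →* AbsGal K) (D : ℕ)
    (T : Finset ℕ) (P : ℕ → Ideal (𝓞 (AlgebraicClosure K)))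
    (invQ invFQ : ∀ w : Option (T ∪ D.primeFactors : Finset ℕ),
        (stb (HP.PP P w) → stb (HP.PP P w) → A0) → A0)
    (inv invF : ∀ w : Option T, (stabD (HP.PP P w) → stabD (HP.PP P w) → A0) → A0)
    (θ φ : ℕ → AbsGal K) (m : ℕ → ℤ) (v : ℕ → ℤ_[2]) : Prop where
  qdat : QDat c (T ∪ D.primeFactors) P invQ
  locF : ∀ w, LocF (stb (HP.PP P w)) (invQ w) (invFQ w)
  recip : ∀ f, KR.Z2 (ufull (AlgebraicClosure K) ((T ∪ D.primeFactors : Finset ℕ) : Set ℕ))
      (tw cyQ) f → ∑ w, invFQ w (rs (stb (HP.PP P w)) f) + (f c c + f 1 1) = 0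
  kdat : KDatF D κ T (HP.PP P) inv invF θ φ m v
  comp : ∀ (w : Option T) (f : (AlgebraicClosure K ≃+* AlgebraicClosure K) →
          (AlgebraicClosure K ≃+* AlgebraicClosure K) → A0),
        invF w (fun a b => f (emb (RingEquiv.refl _) (a : AbsGal K))
          (emb (RingEquiv.refl _) (b : AbsGal K))) =
          invFQ (RQ.incl Finset.subset_union_left w) (fun a b => f a b)
  tht : ∀ p ∈ D.primeFactors, emb (RingEquiv.refl (AlgebraicClosure K)) (θ p) * c ∈ HP.inr (P p)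

/-- parity for all planes, for large `T` -/
def PlK (c : AlgebraicClosure K ≃+* AlgebraicClosure K) (κ : AbsGal K →* AbsGal K) (D : ℕ)
    (N₀ : Subgroup (AbsGal K)) (T : Finset ℕ) : Prop :=
  ∃ T₂ : Finset ℕ, T ⊆ T₂ ∧ (∀ l ∈ T₂, Spl D l) ∧ ∀ T' : Finset ℕ, T₂ ⊆ T' →
    (∀ l ∈ T', Spl D l) → ∀ P : ℕ → Ideal (𝓞 (AlgebraicClosure K)),
    IsP (T' ∪ D.primeFactors) P → ∀ (invQ invFQ : ∀ w : Option (T' ∪ D.primeFactors : Finset ℕ),
        (stb (HP.PP P w) → stb (HP.PP P w) → A0) → A0)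
      (inv invF : ∀ w : Option T', (stabD (HP.PP P w) → stabD (HP.PP P w) → A0) → A0)
      (θ φ : ℕ → AbsGal K) (m : ℕ → ℤ) (v : ℕ → ℤ_[2]),
      KQ c κ D T' P invQ invFQ inv invF θ φ m v →
      ∀ H : ParD.{v} (big (fullK (K := K) T') N₀)
          (fun w : Option T' => big (fullD (stabD (HP.PP P w)))
            (N₀.comap (stabD (HP.PP P w)).subtype))
          (fun w => (stabD (HP.PP P w)).subtype) cyc invF κ
          {p | ∃ n ∈ D.primeFactors, p = (θ n, φ n)},
        ∀ (O : Type v) [CommRing O] [IsLocalRing O],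
          Nat.card (IsLocalRing.ResidueField O) = 2 → ParPl H O

theorem tri_mono {T T' : Finset ℕ} (h : T ⊆ T') {N₀ C : Subgroup (AbsGal K)}
    (hC : Tri (fullK (K := K) T) N₀ C) : Tri (fullK (K := K) T') N₀ C :=
  ⟨RQ.syl_mono h hC.toSyl, hC.three, hC.core⟩

end Pool.Agent.Work.MP_787500_nt.LA
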