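import Mathlib
import Pool.Agent.Work.MP_787500_nt.LA.PlDefs
import Pool.Agent.Work.MP_787500_nt.KS.V23

/-!
The parity of all self-dual planes over `K`, for large sets `T` of primes.
-/

set_option autoImplicit false
set_option linter.unusedSectionVars false

namespace Pool.Agent.Work.MP_787500_nt.LA

open NumberField
open Pool.Agent.Work.MP_787500_nt.HP (IsQ Spl IsP)
open Pool.Agent.Work.MP_787500_nt.KR (Tri fullK)

universe u v

variable {K : Type u} [Field K] [NumberField K] {D : ℕ} {s : K}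
  {c : AlgebraicClosure K ≃+* AlgebraicClosure K} {κ : AbsGal K →* AbsGal K}

theorem plK (hK : IsQ K D s) (hc : PA.IsConj s c)
    (hκ : ∀ (σ : AbsGal K) (x : AlgebraicClosure K), κ σ x = c (σ (c x)))
    {T : Finset ℕ} (hT : ∀ l ∈ T, Spl D l) {N₀ C : Subgroup (AbsGal K)}
    (hC : Tri (fullK (K := K) T) N₀ C) : PlK.{u, v} c κ D N₀ T := by
  have hopn : KR.Opn (fullK (K := K) T) C := by
    obtain ⟨W, hW, h1⟩ := hC.opn
    exact ⟨W, hW, h1.trans hC.le⟩
  obtain ⟨T₂, h1, h2, h3⟩ := GA.class_K hK hc hκ hT hopn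
  refine ⟨T₂, h1, h2, fun T' hTT' hT' P hP invQ invFQ inv invF θ φ m v hKQ H O _ _ hq => ?_⟩
  have hP' : IsP T' P :=
    ⟨fun l hl => hP.prime l (Finset.mem_union_left _ hl),
      fun l hl => hP.odd l (Finset.mem_union_left _ hl),
      fun l hl => hP.isPrime l (hl.imp (fun h => Finset.mem_union_left _ h) id),
      fun l hl => hP.mem l (hl.imp (fun h => Finset.mem_union_left _ h) id)⟩
  obtain ⟨-, -, hinj, -, -⟩ := h3 T' hTT' hT' P hP'
  exact KS.parPl ⟨hK, hc, hκ, hT', hP⟩ hKQ.qdat hKQ.locF hKQ.recip hKQ.comp hKQ.tht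
    (tri_mono (h1.trans hTT') hC) hinj H hq

end Pool.Agent.Work.MP_787500_nt.LA
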