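import Mathlib
import Pool.Agent.Work.MP_787500_nt.RQ.HypK
import Pool.Agent.Work.MP_787500_nt.LA.Fin
import Pool.Agent.Work.MP_787500_nt.LA.Norm
import Pool.Agent.Work.MP_787500_nt.LA.Pl
import Pool.Agent.Work.MP_787500_nt.LB.BK
import Pool.Agent.Work.MP_787500_nt.KR.BigK

/-!
Assembly over the imaginary quadratic field: the parity formula with the condition of Bloch and Kato at all
primes not above 2.
-/

set_option autoImplicit false
set_option linter.unusedSectionVars false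

namespace Pool.Agent.Work.MP_787500_nt.LA

open Matrix NumberField
open Pool.Agent.Work.MP_787500_nt.GP
open Pool.Agent.Work.MP_787500_nt.PA (cyc toE)
open Pool.Agent.Work.MP_787500_nt.HP (IsQ Spl IsP QDat stb cyQ emb)
open Pool.Agent.Work.MP_787500_nt.RQ (KDatF LocF rs ufull)
open Pool.Agent.Work.MP_787500_nt.KR (FSys big Tri Syl fullK fullD ParD ParPl)

universe u v

variable {K : Type u} [Field K] [NumberField K] {D : ℕ} {s : K}
  {c : AlgebraicClosure K ≃+* AlgebraicClosure K} {κ : AbsGal K →* AbsGal K}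

theorem bk_main (hK : IsQ K D s) (hc : PA.IsConj s c)
    (hκ : ∀ (σ : AbsGal K) (x : AlgebraicClosure K), κ σ x = c (σ (c x)))
    {P₀ : Ideal (𝓞 (AlgebraicClosure K))} (hP₀ : P₀.IsPrime)
    (hP2 : (2 : 𝓞 (AlgebraicClosure K)) ∈ P₀)
    {T : Finset ℕ} (hT : ∀ l ∈ T, Spl D l)
    (hTX : ∀ l, Spl D l → ∀ Q : Ideal (𝓞 (AlgebraicClosure K)), Q.IsPrime →
      (l : 𝓞 (AlgebraicClosure K)) ∈ Q → LB.TX Q l)
    {E : Type v} [NormedField E] [NormedAlgebra ℚ_[2] E] [FiniteDimensional ℚ_[2] E]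
    (hres : ∀ x : E, ‖x‖ ≤ 1 → ‖x‖ < 1 ∨ ‖x - 1‖ < 1) {n : ℕ}
    {ρ : AbsGal K →* Matrix (Fin n) (Fin n) E} {b : Matrix (Fin n) (Fin n) E} (hb : b.det ≠ 0)
    {N : Subgroup (AbsGal K)} (hN : N.Normal) (hi : N.index ∣ 6)
    (hρ : Gn.ConjDual 2 N (inT K T) (Parity.cyclo E) κ ρ b) :
    Parity.ParityBK (Parity.inertiaOffTwo K) (Parity.cyclo E) κ ρ b (stabD P₀) False := by
  classical
  have hκκ : ∀ g, κ (κ g) = g := by
    intro g
    ext x
    rw [hκ, hκ, hc.sq, hc.sq]
  have hκc : Continuous κ := PA.kappa_continuous hc.sq hκ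
  have hρ' : Gn.ConjDual 2 N (inT K T) (fun g => toE E (cyc g)) κ ρ b := hρ
  rcases exists_tri (KR.isFull_K T) (χ := cyc) PA.isChar_cyc.mul PA.isChar_cyc.one
    PA.isChar_cyc.odd hκκ hb hN hi hρ' with
    hall | ⟨N₀, C, hC, hNo, hκN, hNI, hpro⟩
  · have h1 := HP.bk_final K hK.deg D hK.sqf hK.mod s hK.sq P₀ hP₀ hP2 c hc.sq hc.neg κ hκ T hT E n ρ
      b hb ⟨hρ.cont, hall, hρ.unram, hρ.symm, hρ.dual⟩
    intro L hL
    obtain ⟨h2, h3, h4, h5, -⟩ := h1 L hL
    exact ⟨h2, h3, h4, h5, fun h => h.elim⟩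
  · obtain ⟨T₁, hTT₁, hT₁, hyp⟩ := RQ.exists_hypP hK hc hκ hT hC.toSyl hκN
    obtain ⟨T₂, hTT₂, hT₂, hpl⟩ := plK.{u, v} hK hc hκ hT hC
    set T' : Finset ℕ := T₁ ∪ T₂ with hT'
    have hTT' : T ⊆ T' := hTT₁.trans Finset.subset_union_left
    have hsT' : ∀ l ∈ T', Spl D l := by
      intro l hl
      rcases Finset.mem_union.1 hl with h | h
      · exact hT₁ l h
      · exact hT₂ l h
    -- the primes
    have hR : ∀ p : ℕ, ∃ Q : Ideal (𝓞 (AlgebraicClosure K)), p.Prime →
        Q.IsPrime ∧ (p : 𝓞 (AlgebraicClosure K)) ∈ Q := by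
      intro p
      by_cases hp : p.Prime
      · obtain ⟨Q, hQ⟩ := HP.prime_over_nat (Ω := AlgebraicClosure K) hp
        exact ⟨Q, fun _ => hQ⟩
      · exact ⟨⊥, fun h => absurd h hp⟩
    choose R hR using hR
    let P : ℕ → Ideal (𝓞 (AlgebraicClosure K)) := fun l => if l = 2 then P₀ else R l
    have h2 : P 2 = P₀ := if_pos rfl
    have hout : ∀ l, l ≠ 2 → P l = R l := fun l hl => if_neg hl
    have hprime : ∀ l ∈ T' ∪ D.primeFactors, l.Prime := by
      intro l hl
      rcases Finset.mem_union.1 hl with h | h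
      · exact (hsT' l h).1
      · exact Nat.prime_of_mem_primeFactors h
    have hodd : ∀ l ∈ T' ∪ D.primeFactors, l ≠ 2 := by
      intro l hl
      rcases Finset.mem_union.1 hl with h | h
      · exact (hsT' l h).2.1
      · rintro rfl
        have h3 := Nat.dvd_of_mem_primeFactors h
        have h4 := hK.mod
        omega
    have hIsP : IsP (T' ∪ D.primeFactors) P := by
      refine ⟨hprime, hodd, fun l hl => ?_, fun l hl => ?_⟩
      · by_cases h : l = 2
        · subst h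
          rw [h2]
          exact hP₀
        · rw [hout l h]
          exact (hR l (hprime l (hl.resolve_right h))).1
      · by_cases h : l = 2
        · subst h
          rw [h2]
          exact_mod_cast hP2
        · rw [hout l h]
          exact (hR l (hprime l (hl.resolve_right h))).2
    have hIsP' : IsP T' P :=
      ⟨fun l hl => hIsP.prime l (Finset.mem_union_left _ hl),
        fun l hl => hIsP.odd l (Finset.mem_union_left _ hl),
        fun l hl => hIsP.isPrime l (hl.imp (fun h => Finset.mem_union_left _ h) id),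
        fun l hl => hIsP.mem l (hl.imp (fun h => Finset.mem_union_left _ h) id)⟩
    obtain ⟨invQ, invFQ, inv, invF, θ, φ, m, w, h3, h4, h5, h6, h7, h8⟩ :=
      RQ.exists_KQ' hK hc hκ hsT' hIsP
    have hyp' := hyp T' Finset.subset_union_left hsT' P hIsP' inv invF θ φ m w h6
    have H : ParD.{v} (big (fullK (K := K) T') N₀)
        (fun w : Option T' => big (fullD (stabD (HP.PP P w)))
          (N₀.comap (stabD (HP.PP P w)).subtype))
        (fun w => (stabD (HP.PP P w)).subtype) cyc invF κ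
        {p | ∃ n ∈ D.primeFactors, p = (θ n, φ n)} := KR.parD_of hyp'
    have hpar := hpl T' Finset.subset_union_right hsT' P hIsP invQ invFQ inv invF θ φ m w
      ⟨h3, h4, h5, h6, h7, h8⟩ H
    have hI : ∀ σ ∈ inT K T', ρ σ = 1 := fun σ hσ => hρ.unram σ (HP.inT_mono hTT' hσ)
    have hρ₀ : Gn.ConjDual 2 N₀ (inT K T') (fun g => toE E (cyc g)) κ ρ b :=
      ⟨hρ.cont, hpro, hI, hρ.symm, hρ.dual⟩
    have hB : Gn.Base N₀ (inT K T') :=
      KR.base_K hC.normal hNo fun σ hσ => hNI σ (HP.inT_mono hTT' hσ)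
    have hform := parity_of_par (D := fun w : Option T' => stabD (HP.PP P w)) hB (HP.basis_K K)
      (KR.isBig_K T' N₀) (fun w => stabD_closed _) (fun w => KR.isBig_D N₀ (stabD_closed _)) hκc hκN
      (tri_mono hTT' hC) H hyp'.inj hyp'.sha hpar
      (by
        rintro _ ⟨n, hn, rfl⟩
        exact h6.tht n hn) hres hb hρ₀
    have hfin := LB.bk_gen hK hc hκ hIsP' (fun l hl => hTX l (hsT' l hl) _
      (hIsP'.isPrime l (Or.inl hl)) (hIsP'.mem l (Or.inl hl))) hC.normal hNo hκN hρ₀ hb hform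
    rw [h2] at hfin
    exact hfin

end Pool.Agent.Work.MP_787500_nt.LA
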