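import Mathlib
import Pool.Agent.Work.MP_787500_nt.LA.Norm

/-!
In dimension two over a totally ramified extension of `ℚ_2` every representation is pro-2 on a normal subgroup
of index dividing 6.
-/

set_option autoImplicit false
set_option linter.unusedSectionVars false

namespace Pool.Agent.Work.MP_787500_nt.LA

open Matrix
open Pool.Agent.Work.MP_787500_nt.PA (toE)
open Pool.Agent.Work.MP_787500_nt.GP
open Pool.Agent.Work.MP_787500_nt.KR (FSys IsFull Tri Syl Opn)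

section lat

variable {E : Type*} [NormedField E] [NormedAlgebra ℚ_[2] E] [FiniteDimensional ℚ_[2] E]

/-- an element of maximal norm of the coordinates of a compact set of vectors -/
theorem exists_maxcoord {S : Set (Fin 2 → E)} (hS : IsCompact S) (hne : S.Nonempty) (i : Fin 2) :
    ∃ v ∈ S, ∀ x ∈ S, ‖x i‖ ≤ ‖v i‖ := by
  obtain ⟨v, hv, h⟩ := hS.exists_isMaxOn hne (f := fun x : Fin 2 → E => ‖x i‖)
    ((continuous_apply i).norm).continuousOn
  exact ⟨v, hv, fun x hx => h hx⟩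

/-- a lattice in `E ^ 2` is generated by two elements -/
theorem lat_gen {T : Submodule (OE E) (Fin 2 → E)} (hbdd : ∃ R : ℝ, ∀ x ∈ T, ‖x‖ ≤ R)
    (hopn : ∃ r : ℝ, 0 < r ∧ ∀ x : Fin 2 → E, ‖x‖ < r → x ∈ T) :
    ∃ v w : Fin 2 → E, v ∈ T ∧ w ∈ T ∧ ∀ x ∈ T, ∃ a b : OE E, x = a • v + b • w := by
  have hp : ProperSpace E := FiniteDimensional.proper ℚ_[2] E
  obtain ⟨R, hR⟩ := hbdd
  obtain ⟨r, hr, hr'⟩ := hopn
  have hTo : IsOpen (T : Set (Fin 2 → E)) := by
    rw [Metric.isOpen_iff]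
    intro x hx
    refine ⟨r, hr, fun y hy => ?_⟩
    have h1 : y - x ∈ T := hr' _ (by rwa [← dist_eq_norm])
    have h2 := T.add_mem h1 hx
    rwa [sub_add_cancel] at h2
  have hTc : IsClosed (T : Set (Fin 2 → E)) := by
    have := (T.toAddSubgroup).isClosed_of_isOpen hTo
    exact this
  have hcomp : IsCompact (T : Set (Fin 2 → E)) :=
    Metric.isCompact_of_isClosed_isBounded hTc (by
      rw [isBounded_iff_forall_norm_le]
      exact ⟨R, hR⟩)
  obtain ⟨v, hv, hvm⟩ := exists_maxcoord hcomp ⟨0, T.zero_mem⟩ 0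
  have hcomp2 : IsCompact ((T : Set (Fin 2 → E)) ∩ {x | x 0 = 0}) :=
    hcomp.inter_right (isClosed_eq (continuous_apply 0) continuous_const)
  obtain ⟨w, hw, hwm⟩ := exists_maxcoord hcomp2 ⟨0, T.zero_mem, rfl⟩ 1
  have hw0 : w 0 = 0 := hw.2
  -- nonzero coordinates
  have hbig : ∃ c : E, c ≠ 0 ∧ ‖c‖ < r := by
    obtain ⟨l, hl0, hl1, -⟩ := exists_unif E
    obtain ⟨m, hm⟩ := exists_pow_lt_of_lt_one hr hl1
    exact ⟨(l : E) ^ m, pow_ne_zero _ hl0, by rwa [norm_pow]⟩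
  obtain ⟨c, hc0, hc⟩ := hbig
  have hv0 : v 0 ≠ 0 := by
    intro h0
    have h1 := hvm (Pi.single 0 c) (hr' _ (by rwa [Pi.norm_single]))
    rw [Pi.single_eq_same, h0, norm_zero] at h1
    exact hc0 (norm_le_zero_iff.1 h1)
  have hw1 : w 1 ≠ 0 := by
    intro h0
    have h1 := hwm (Pi.single 1 c) ⟨hr' _ (by rwa [Pi.norm_single]), by simp⟩
    rw [Pi.single_eq_same, h0, norm_zero] at h1
    exact hc0 (norm_le_zero_iff.1 h1)
  refine ⟨v, w, hv, hw.1, fun x hx => ?_⟩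
  let a : OE E := ⟨x 0 / v 0, by
    show ‖x 0 / v 0‖ ≤ 1
    rw [norm_div, div_le_one (norm_pos_iff.2 hv0)]
    exact hvm x hx⟩
  have hy : x - a • v ∈ T := T.sub_mem hx (T.smul_mem _ hv)
  have hy0 : (x - a • v) 0 = 0 := by
    show x 0 - (x 0 / v 0) * v 0 = 0
    rw [div_mul_cancel₀ _ hv0, sub_self]
  let b : OE E := ⟨(x - a • v) 1 / w 1, by
    show ‖(x - a • v) 1 / w 1‖ ≤ 1
    rw [norm_div, div_le_one (norm_pos_iff.2 hw1)]
    exact hwm _ ⟨hy, hy0⟩⟩
  refine ⟨a, b, ?_⟩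
  have hb : x - a • v = b • w := by
    funext i
    fin_cases i
    · show (x - a • v) 0 = (b : E) * w 0
      rw [hy0, hw0, mul_zero]
    · show (x - a • v) 1 = ((x - a • v) 1 / w 1) * w 1
      rw [div_mul_cancel₀ _ hw1]
  rw [← hb]
  abel

/-- `l⁻¹ T / T` has at most four elements -/
theorem card_le_four {T : Submodule (OE E) (Fin 2 → E)} {l : OE E} (hl0 : (l : E) ≠ 0)
    (hlm : ∀ x : E, ‖x‖ < 1 → ‖x‖ ≤ ‖(l : E)‖)
    (hres : ∀ x : E, ‖x‖ ≤ 1 → ‖x‖ < 1 ∨ ‖x - 1‖ < 1) (hbdd : ∃ R : ℝ, ∀ x ∈ T, ‖x‖ ≤ R)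
    (hopn : ∃ r : ℝ, 0 < r ∧ ∀ x : Fin 2 → E, ‖x‖ < r → x ∈ T) :
    Finite (MN T l 1) ∧ Nat.card (MN T l 1) ≤ 4 := by
  obtain ⟨v, w, hv, hw, hgen⟩ := lat_gen hbdd hopn
  have hbit : ∀ a : OE E, ∃ (ε : Bool) (a' : OE E), a = (if ε then 1 else 0) + l * a' := by
    intro a
    rcases hres a a.2 with h | h
    · refine ⟨false, ⟨(a : E) / l, ?_⟩, Subtype.ext ?_⟩
      · show ‖(a : E) / l‖ ≤ 1
        rw [norm_div, div_le_one (norm_pos_iff.2 hl0)]
        exact hlm _ h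
      · show (a : E) = ((if false then 1 else 0 : OE E) : E) + l * (a / l)
        rw [mul_div_cancel₀ _ hl0]
        simp
    · refine ⟨true, ⟨((a : E) - 1) / l, ?_⟩, Subtype.ext ?_⟩
      · show ‖((a : E) - 1) / l‖ ≤ 1
        rw [norm_div, div_le_one (norm_pos_iff.2 hl0)]
        exact hlm _ h
      · show (a : E) = ((if true then 1 else 0 : OE E) : E) + l * ((a - 1) / l)
        rw [mul_div_cancel₀ _ hl0]
        simp
  have hmem : ∀ x ∈ T, mq T ((l : E)⁻¹ • x) ∈ Submodule.torsionBy (OE E) (Wq T) (l ^ 1) := by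
    intro x hx
    rw [Submodule.mem_torsionBy_iff, pow_one, ← mq_smul, mq_eq_zero, smul_smul,
      mul_inv_cancel₀ hl0, one_smul]
    exact hx
  let e : Bool → OE E := fun ε => if ε then 1 else 0
  let f : Bool × Bool → MN T l 1 := fun p =>
    ⟨mq T ((l : E)⁻¹ • (e p.1 • v + e p.2 • w)),
      hmem _ (T.add_mem (T.smul_mem _ hv) (T.smul_mem _ hw))⟩
  have hf : Function.Surjective f := by
    intro m
    have h1 := m.lft_mem
    rw [pow_one] at h1
    obtain ⟨a, b, hab⟩ := hgen _ h1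
    obtain ⟨ε, a', ha⟩ := hbit a
    obtain ⟨δ, b', hb⟩ := hbit b
    refine ⟨(ε, δ), Subtype.ext ?_⟩
    show mq T ((l : E)⁻¹ • (e ε • v + e δ • w)) = (m : Wq T)
    rw [← mq_lft (m : Wq T), mq_eq]
    have h2 : (l : E)⁻¹ • (e ε • v + e δ • w) - lft (m : Wq T) = -(a' • v + b' • w) := by
      have h3 : lft (m : Wq T) = (l : E)⁻¹ • (a • v + b • w) := by
        rw [← hab, smul_smul, inv_mul_cancel₀ hl0, one_smul]
      have h4 : a • v + b • w = (e ε • v + e δ • w) + (l : E) • (a' • v + b' • w) := by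
        have h5 : ∀ x : Fin 2 → E, (l : E) • x = l • x := fun x => rfl
        rw [ha, hb, h5]
        show ((e ε) + l * a') • v + ((e δ) + l * b') • w = _
        rw [add_smul, add_smul, smul_add, mul_smul, mul_smul]
        abel
      rw [h3, h4, ← smul_sub, sub_add_cancel_left, smul_neg, smul_smul, inv_mul_cancel₀ hl0, one_smul]
    rw [h2]
    exact T.neg_mem (T.add_mem (T.smul_mem _ hv) (T.smul_mem _ hw))
  have hfin : Finite (MN T l 1) := Finite.of_surjective f hf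
  refine ⟨hfin, ?_⟩
  have h1 := Nat.card_le_card_of_surjective f hf
  have h2 : Nat.card (Bool × Bool) = 4 := by simp
  rwa [h2] at h1

end lat

variable {G : Type*} [Group G] [TopologicalSpace G] [IsTopologicalGroup G] [CompactSpace G]
  {E : Type*} [NormedField E] [NormedAlgebra ℚ_[2] E] [FiniteDimensional ℚ_[2] E]
  {ρ : G →* Matrix (Fin 2) (Fin 2) E}

/-- the kernel of the action on `l⁻¹ T / T` has index dividing 6 -/
theorem index_kerT {T : Submodule (OE E) (Fin 2 → E)} {l : OE E} (hl0 : (l : E) ≠ 0)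
    (hlm : ∀ x : E, ‖x‖ < 1 → ‖x‖ ≤ ‖(l : E)‖)
    (hres : ∀ x : E, ‖x‖ ≤ 1 → ‖x‖ < 1 ∨ ‖x - 1‖ < 1)
    (hst : ∀ g, ∀ x ∈ T, ρ g *ᵥ x ∈ T) (hbdd : ∃ R : ℝ, ∀ x ∈ T, ‖x‖ ≤ R)
    (hopn : ∃ r : ℝ, 0 < r ∧ ∀ x : Fin 2 → E, ‖x‖ < r → x ∈ T) :
    (KR.kerT T (l : E) ρ hst).index ∣ 6 := by
  classical
  obtain ⟨hfin, h4⟩ := card_le_four hl0 hlm hres hbdd hopn
  let act : G → MN T l 1 → MN T l 1 := fun g m => actN l 1 (fun g => ρ g) hst g m
  have hact1 : ∀ m, act 1 m = m := by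
    intro m
    apply Subtype.ext
    show actQ T (ρ 1) (m : Wq T) = m
    rw [map_one]
    conv_lhs => rw [← mq_lft (m : Wq T)]
    rw [actQ_mq (fun x hx => by rw [one_mulVec]; exact hx), one_mulVec, mq_lft]
  have hactm : ∀ g h m, act (g * h) m = act g (act h m) := by
    intro g h m
    apply Subtype.ext
    show actQ T (ρ (g * h)) (m : Wq T) = actQ T (ρ g) (actQ T (ρ h) (m : Wq T))
    conv_lhs => rw [← mq_lft (m : Wq T)]
    conv_rhs => rw [← mq_lft (m : Wq T)]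
    rw [actQ_mq (hst (g * h)), actQ_mq (hst h), actQ_mq (hst g), map_mul, mulVec_mulVec]
  have hact0 : ∀ g, act g 0 = 0 := by
    intro g
    apply Subtype.ext
    show actQ T (ρ g) (0 : Wq T) = 0
    have h0 : (0 : Wq T) = mq T 0 := rfl
    rw [h0, actQ_mq (hst g), mulVec_zero]
  have hne : ∀ g m, m ≠ 0 → act g m ≠ 0 := by
    intro g m hm h0
    apply hm
    rw [← hact1 m, ← inv_mul_cancel g, hactm, h0, hact0]
  let X := {m : MN T l 1 // m ≠ 0}
  let f : G →* Equiv.Perm X := MonoidHom.mk'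
    (fun g => ⟨fun x => ⟨act g x, hne g x x.2⟩, fun x => ⟨act g⁻¹ x, hne g⁻¹ x x.2⟩,
      fun x => Subtype.ext (by
        show act g⁻¹ (act g x) = x
        rw [← hactm, inv_mul_cancel, hact1]),
      fun x => Subtype.ext (by
        show act g (act g⁻¹ x) = x
        rw [← hactm, mul_inv_cancel, hact1])⟩)
    (fun g h => Equiv.ext fun x => Subtype.ext (hactm g h x))
  have hker : f.ker = KR.kerT T (l : E) ρ hst := by
    ext g
    rw [KR.mem_kerT_iff, MonoidHom.mem_ker]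
    constructor
    · intro h m
      by_cases hm : m = 0
      · rw [hm]
        exact hact0 g
      · have h1 := congrArg (fun e : Equiv.Perm X => ((e ⟨m, hm⟩ : X) : MN T l 1)) h
        exact h1
    · intro h
      exact Equiv.ext fun x => Subtype.ext (h x)
  have hXf : Finite X := inferInstance
  have hX : Nat.card X ≤ 3 := by
    have h5 : Nat.card X + 1 = Nat.card (MN T l 1) := by
      have := Fintype.ofFinite (MN T l 1)
      rw [Nat.card_eq_fintype_card, Nat.card_eq_fintype_card, Fintype.card_subtype_compl]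
      have h6 : Fintype.card {x : MN T l 1 // x = 0} = 1 := Fintype.card_subtype_eq 0
      have h7 : 0 < Fintype.card (MN T l 1) := Fintype.card_pos
      rw [h6]
      omega
    omega
  rw [← hker, Subgroup.index_ker]
  have h6 : Nat.card f.range ∣ Nat.card (Equiv.Perm X) := Subgroup.card_subgroup_dvd_card _
  have h7 : Nat.card (Equiv.Perm X) = (Nat.card X).factorial := Nat.card_perm
  rw [h7] at h6
  refine h6.trans ?_
  interval_cases Nat.card X <;> decide

/-- every two-dimensional representation is pro-2 on a normal subgroup of index dividing 6 -/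
theorem exists_N2 (hρ : Continuous ρ) (hres : ∀ x : E, ‖x‖ ≤ 1 → ‖x‖ < 1 ∨ ‖x - 1‖ < 1) :
    ∃ N : Subgroup G, N.Normal ∧ N.index ∣ 6 ∧
      ∀ g ∈ N, Filter.Tendsto (fun k : ℕ => ρ (g ^ 2 ^ k)) Filter.atTop (nhds 1) := by
  obtain ⟨l, hl0, hl1, hlm⟩ := exists_unif E
  have hu := Gn.ultra 2 E
  obtain ⟨C, hC0, hC⟩ := KR.rho_bdd hρ
  let T : Submodule (OE E) (Fin 2 → E) :=
    { carrier := {x | ∀ g, ‖ρ g *ᵥ x‖ ≤ 1}
      add_mem' := fun {x y} hx hy g => by
        rw [mulVec_add]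
        refine (pi_norm_le_iff_of_nonneg zero_le_one).2 fun i => ?_
        exact (IsUltrametricDist.norm_add_le_max _ _).trans
          (max_le ((norm_le_pi_norm _ i).trans (hx g)) ((norm_le_pi_norm _ i).trans (hy g)))
      zero_mem' := fun g => by
        rw [mulVec_zero, norm_zero]
        exact zero_le_one
      smul_mem' := fun a x hx g => by
        have h1 : a • x = (a : E) • x := rfl
        rw [h1, mulVec_smul, norm_smul]
        exact mul_le_one₀ a.2 (norm_nonneg _) (hx g) }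
  have hst : ∀ g, ∀ x ∈ T, ρ g *ᵥ x ∈ T := by
    intro g x hx h
    rw [mulVec_mulVec, ← map_mul]
    exact hx _
  have hbdd : ∀ x ∈ T, ‖x‖ ≤ 1 := by
    intro x hx
    have h1 := hx 1
    rwa [map_one, one_mulVec] at h1
  have hopn : ∀ x : Fin 2 → E, ‖x‖ < 1 / C → x ∈ T := by
    intro x hx g
    refine (hC g x).trans ?_
    rw [lt_div_iff₀ hC0] at hx
    linarith
  exact ⟨KR.kerT T (l : E) ρ hst, KR.kerT_normal hst,
    index_kerT hl0 hlm hres hst ⟨1, hbdd⟩ ⟨1 / C, by positivity, hopn⟩,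
    fun g hg => KR.kerT_pro hl0 hl1 hlm hst ⟨1, hbdd⟩ ⟨1 / C, by positivity, hopn⟩ hg⟩

end Pool.Agent.Work.MP_787500_nt.LA
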