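import Mathlib
import Pool.Agent.Work.MP_787500_nt.LA.Main
import Pool.Agent.Work.MP_787500_nt.LA.Two
import Pool.Agent.Work.MP_787500_nt.LA.FDefs
import Pool.Agent.Work.MP_787500_nt.LB.ArithB

/-!
The parity theorem for Bloch-Kato Selmer groups of conjugate self-dual representations.
-/

set_option autoImplicit false
set_option linter.unusedSectionVars false

namespace Pool.Agent.Work.MP_787500_nt.LA

open Matrix NumberField
open Pool.Agent.Work.MP_787500_nt.GP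
open Pool.Agent.Work.MP_787500_nt.PA (cyc toE)
open Pool.Agent.Work.MP_787500_nt.HP (IsQ Spl)
open Pool.Agent.Work.MP_787500_nt.Parity (IsDualRep ProTwoOn NearProTwo)

universe u v

theorem final (K : Type u) [Field K] [NumberField K] (hK : Module.finrank ℚ K = 2) (D : ℕ)
    (hD : Squarefree D) (hD8 : D % 8 = 7) (s : K) (hs : s ^ 2 = -(D : K))
    (P : Ideal (𝓞 (AlgebraicClosure K))) (hP : P.IsPrime)
    (hP2 : (2 : 𝓞 (AlgebraicClosure K)) ∈ P)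
    (c : AlgebraicClosure K ≃+* AlgebraicClosure K) (hc : ∀ x, c (c x) = x)
    (hcs : c (algebraMap K (AlgebraicClosure K) s) = -algebraMap K (AlgebraicClosure K) s)
    (κ : AbsGal K → AbsGal K)
    (hκ : ∀ (σ : AbsGal K) (x : AlgebraicClosure K), κ σ x = c (σ (c x)))
    (T : Finset ℕ) (hT : ∀ l ∈ T, l.Prime ∧ l ≠ 2 ∧ ¬ l ∣ D ∧ ∃ A : ℤ, (l : ℤ) ∣ A ^ 2 + D)
    (E : Type v) [NormedField E] [NormedAlgebra ℚ_[2] E] [FiniteDimensional ℚ_[2] E] (n : ℕ)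
    (ρ : AbsGal K →* Matrix (Fin n) (Fin n) E) (b : Matrix (Fin n) (Fin n) E) (hb : b.det ≠ 0)
    (hρ : IsDualRep (inT K T) (Parity.cyclo E) κ ρ b) (hN : NearProTwo ρ) :
    Parity.ParityBK (Parity.inertiaOffTwo K) (Parity.cyclo E) κ ρ b (stabD P)
      (D.Prime ∧ D % 16 = 7 ∧ ProTwoOn ⊤ ρ ∧ ∀ Q : Ideal (𝓞 (AlgebraicClosure K)), Q.IsPrime →
        (∃ l ∈ T, (l : 𝓞 (AlgebraicClosure K)) ∈ Q) → TwistAt ρ Q) := by
  by_cases hall : ProTwoOn ⊤ ρ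
  · have h1 := HP.bk_final K hK D hD hD8 s hs P hP hP2 c hc hcs κ hκ T hT E n ρ b hb
      ⟨hρ.cont, fun σ => hall σ trivial, hρ.unram, hρ.symm, hρ.dual⟩
    intro L hL
    obtain ⟨h2, h3, h4, h5, h6⟩ := h1 L hL
    exact ⟨h2, h3, h4, h5, fun h => h6 ⟨h.1, h.2.1, h.2.2.2⟩⟩
  · obtain ⟨hres, hN'⟩ := hN.resolve_left hall
    obtain ⟨N, hNn, hNi, hNp⟩ : ∃ N : Subgroup (AbsGal K), N.Normal ∧ N.index ∣ 6 ∧ ProTwoOn N ρ := by
      rcases hN' with rfl | h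
      · exact exists_N2 hρ.cont hres
      · exact h
    let κ' : AbsGal K →* AbsGal K := MonoidHom.mk' κ fun g h => by
      ext x
      rw [hκ, AlgEquiv.mul_apply, AlgEquiv.mul_apply, hκ, hκ, hc]
    have h1 := bk_main (κ := κ') (T := T) ⟨hK, hs, hD, hD8⟩ ⟨hc, hcs⟩ hκ hP hP2 hT
      (fun l hl Q hQ hlQ => LB.exists_tameX (s := s) ⟨hK, hs, hD, hD8⟩ hl hQ hlQ) hres hb
      hNn hNi ⟨hρ.cont, hNp, hρ.unram, hρ.symm, hρ.dual⟩
    intro L hL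
    obtain ⟨h2, h3, h4, h5, -⟩ := h1 L hL
    exact ⟨h2, h3, h4, h5, fun h => absurd h.2.2.1 hall⟩

end Pool.Agent.Work.MP_787500_nt.LA
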